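import Pool.Agent.Helper76.CQ.Defs

/-!
# Project CQ, piece 8a: `window_D0`, `shift_D0`, `slope_chi0`
-/

set_option autoImplicit false

namespace Pool.Agent.Helper90.CQ

open Pool.Agent.Helper76.CY Pool.Agent.Helper76.CQ

/-! ## Symmetry and shift invariance -/

theorem sym3_swap12 (p q r i j k : Fin 10) : sym3 p q r i j k = sym3 p q r j i k := by
  have h : ∀ a b c : Fin 10, (i = a ∧ j = b ∧ k = c) ↔ (j = b ∧ i = a ∧ k = c) :=
    fun a b c => and_left_comm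
  simp only [sym3, h]
  ring

theorem sym3_swap23 (p q r i j k : Fin 10) : sym3 p q r i j k = sym3 p q r i k j := by
  have h : ∀ a b c : Fin 10, (i = a ∧ j = b ∧ k = c) ↔ (i = a ∧ k = c ∧ j = b) :=
    fun a b c => and_congr_right fun _ => and_comm
  simp only [sym3, h]
  ring

theorem orb_swap12 (a b i j k : Fin 10) : orb a b i j k = orb a b j i k :=
  Finset.sum_congr rfl fun l _ => sym3_swap12 l (l + a) (l + b) i j k

theorem orb_swap23 (a b i j k : Fin 10) : orb a b i j k = orb a b i k j :=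
  Finset.sum_congr rfl fun l _ => sym3_swap23 l (l + a) (l + b) i j k

theorem sym3_succ (p q r i j k : Fin 10) :
    sym3 (p + 1) (q + 1) (r + 1) (i + 1) (j + 1) (k + 1) = sym3 p q r i j k := by
  simp only [sym3, add_left_inj]

theorem orb_succ (a b i j k : Fin 10) : orb a b (i + 1) (j + 1) (k + 1) = orb a b i j k := by
  unfold orb
  rw [← Equiv.sum_comp (Equiv.addRight (1 : Fin 10))]
  refine Finset.sum_congr rfl fun l _ => ?_
  have h : (Equiv.addRight (1 : Fin 10)) l = l + 1 := rfl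
  rw [h, add_right_comm l 1 a, add_right_comm l 1 b, sym3_succ]

theorem D0Z_succ (i j k : Fin 10) : D0Z (i + 1) (j + 1) (k + 1) = D0Z i j k := by
  simp only [D0Z, orb_succ]

theorem D0Z_swap12 (i j k : Fin 10) : D0Z i j k = D0Z j i k := by
  simp only [D0Z, orb_swap12 _ _ i j k]

theorem D0Z_swap23 (i j k : Fin 10) : D0Z i j k = D0Z i k j := by
  simp only [D0Z, orb_swap23 _ _ i j k]

/-- CQ-8a. -/
theorem shift_D0 (K : Type*) [Ring K] : shift (D0 K) = D0 K := by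
  funext i j k
  show ((D0Z (i + 1) (j + 1) (k + 1) : ℤ) : K) = ((D0Z i j k : ℤ) : K)
  rw [D0Z_succ]

/-! ## The window conditions -/

set_option maxRecDepth 100000 in
theorem D0Z_zero : ∀ i j k : Fin 10, i ≤ j → j ≤ k → k ≤ 3 → ¬ (i = 0 ∧ j = 3 ∧ k = 3) →
    D0Z i j k = 0 := by
  decide

/-- The values needed for the nondegeneracy. -/
theorem tri_left {K : Type*} [CommRing K] (D : Ten K) (m : Fin 10 → K) (a b : Fin 10) :
    tri D m (bv K a) (bv K b) = ∑ l, D l a b * m l := by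
  simp only [tri, bv, Pi.single_apply]
  refine Finset.sum_congr rfl fun l _ => ?_
  rw [Finset.sum_eq_single a (fun c _ hc => by simp [hc]) (by simp)]
  rw [Finset.sum_eq_single b (fun c _ hc => by simp [hc]) (by simp)]
  simp

theorem tri_D0 {K : Type*} [CommRing K] (m : Fin 10 → K) (m0 : m 0 = 0) (m1 : m 1 = 0)
    (m2 : m 2 = 0) (m3 : m 3 = 0) (a b : Fin 10) :
    tri (D0 K) m (bv K a) (bv K b) = (D0Z 4 a b : K) * m 4 + (D0Z 5 a b : K) * m 5 +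
      (D0Z 6 a b : K) * m 6 + (D0Z 7 a b : K) * m 7 + (D0Z 8 a b : K) * m 8 +
      (D0Z 9 a b : K) * m 9 := by
  rw [tri_left]
  simp only [Fin.sum_univ_succ, D0]
  simp only [Fin.succ_zero_eq_one, Fin.isValue, Finset.univ_eq_empty, Finset.sum_empty]
  have e2 : (Fin.succ 1 : Fin 10) = 2 := rfl
  have e3 : (Fin.succ (Fin.succ 1) : Fin 10) = 3 := rfl
  have e4 : (Fin.succ (Fin.succ (Fin.succ 1)) : Fin 10) = 4 := rfl
  have e5 : (Fin.succ (Fin.succ (Fin.succ (Fin.succ 1))) : Fin 10) = 5 := rfl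
  have e6 : (Fin.succ (Fin.succ (Fin.succ (Fin.succ (Fin.succ 1)))) : Fin 10) = 6 := rfl
  have e7 : (Fin.succ (Fin.succ (Fin.succ (Fin.succ (Fin.succ (Fin.succ 1))))) : Fin 10) = 7 := rfl
  have e8 : (Fin.succ (Fin.succ (Fin.succ (Fin.succ (Fin.succ (Fin.succ (Fin.succ 1)))))) :
    Fin 10) = 8 := rfl
  have e9 : (Fin.succ (Fin.succ (Fin.succ (Fin.succ (Fin.succ (Fin.succ (Fin.succ (Fin.succ
    1))))))) : Fin 10) = 9 := rfl
  rw [e2, e3, e4, e5, e6, e7, e8, e9, m0, m1, m2, m3]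
  ring

set_option maxRecDepth 100000 in
theorem vals : D0Z 0 3 3 = 2 ∧
    (D0Z 4 0 0 = -2 ∧ D0Z 5 0 0 = 0 ∧ D0Z 6 0 0 = 0 ∧ D0Z 7 0 0 = 2 ∧ D0Z 8 0 0 = 0 ∧
      D0Z 9 0 0 = 0) ∧
    (D0Z 4 0 1 = 0 ∧ D0Z 5 0 1 = 1 ∧ D0Z 6 0 1 = 0 ∧ D0Z 7 0 1 = 0 ∧ D0Z 8 0 1 = 0 ∧
      D0Z 9 0 1 = 0) ∧
    (D0Z 4 0 2 = -1 ∧ D0Z 5 0 2 = 1 ∧ D0Z 6 0 2 = 1 ∧ D0Z 7 0 2 = 2 ∧ D0Z 8 0 2 = -1 ∧
      D0Z 9 0 2 = 0) ∧
    (D0Z 4 1 1 = 0 ∧ D0Z 5 1 1 = -2 ∧ D0Z 6 1 1 = 0 ∧ D0Z 7 1 1 = 0 ∧ D0Z 8 1 1 = 2 ∧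
      D0Z 9 1 1 = 0) ∧
    (D0Z 4 1 2 = 0 ∧ D0Z 5 1 2 = 0 ∧ D0Z 6 1 2 = 1 ∧ D0Z 7 1 2 = 0 ∧ D0Z 8 1 2 = 0 ∧
      D0Z 9 1 2 = 0) ∧
    (D0Z 4 2 2 = 0 ∧ D0Z 5 2 2 = 0 ∧ D0Z 6 2 2 = -2 ∧ D0Z 7 2 2 = 0 ∧ D0Z 8 2 2 = 0 ∧
      D0Z 9 2 2 = 2) := by
  decide

/-- CQ-8a. -/
theorem window_D0 (K : Type*) [Field K] [CharZero K] : Window (D0 K) where
  swap12 i j k := by simp only [D0, D0Z_swap12 i j k]
  swap23 i j k := by simp only [D0, D0Z_swap23 i j k]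
  zero i j k h1 h2 h3 h4 := by
    simp only [D0, D0Z_zero i j k h1 h2 h3 h4, Int.cast_zero]
  alpha := by
    simp only [D0, vals.1]
    norm_num
  nondeg m m0 m1 m2 m3 h := by
    obtain ⟨-, ⟨a4, a5, a6, a7, a8, a9⟩, ⟨b4, b5, b6, b7, b8, b9⟩, ⟨c4, c5, c6, c7, c8, c9⟩,
      ⟨d4, d5, d6, d7, d8, d9⟩, ⟨f4, f5, f6, f7, f8, f9⟩, ⟨g4, g5, g6, g7, g8, g9⟩⟩ := vals
    have k0 : c3 0 = 0 := rfl
    have k1 : c3 1 = 1 := rfl
    have k2 : c3 2 = 2 := rfl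
    have h00 := h 0 0
    have h01 := h 0 1
    have h02 := h 0 2
    have h11 := h 1 1
    have h12 := h 1 2
    have h22 := h 2 2
    rw [k0, tri_D0 m m0 m1 m2 m3, a4, a5, a6, a7, a8, a9] at h00
    rw [k0, k1, tri_D0 m m0 m1 m2 m3, b4, b5, b6, b7, b8, b9] at h01
    rw [k0, k2, tri_D0 m m0 m1 m2 m3, c4, c5, c6, c7, c8, c9] at h02
    rw [k1, tri_D0 m m0 m1 m2 m3, d4, d5, d6, d7, d8, d9] at h11
    rw [k1, k2, tri_D0 m m0 m1 m2 m3, f4, f5, f6, f7, f8, f9] at h12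
    rw [k2, tri_D0 m m0 m1 m2 m3, g4, g5, g6, g7, g8, g9] at h22
    push_cast at h00 h01 h02 h11 h12 h22
    have two : (2 : K) ≠ 0 := two_ne_zero
    have h5 : m 5 = 0 := by linear_combination h01
    have h6 : m 6 = 0 := by linear_combination h12
    have h8 : m 8 = 0 := by
      apply (mul_eq_zero.1 (?_ : (2 : K) * m 8 = 0)).resolve_left two
      linear_combination h11 + 2 * h5
    have h9 : m 9 = 0 := by
      apply (mul_eq_zero.1 (?_ : (2 : K) * m 9 = 0)).resolve_left two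
      linear_combination h22 + 2 * h6
    have h47 : m 7 = m 4 := by
      apply sub_eq_zero.1
      apply (mul_eq_zero.1 (?_ : (2 : K) * (m 7 - m 4) = 0)).resolve_left two
      linear_combination h00
    have h4 : m 4 = 0 := by linear_combination h02 - h5 - h6 + h8 - 2 * h47
    have h7 : m 7 = 0 := h47.trans h4
    funext l
    fin_cases l
    · exact m0
    · exact m1
    · exact m2
    · exact m3
    · exact h4
    · exact h5
    · exact h6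
    · exact h7
    · exact h8
    · exact h9

/-! ## The Newton polygon -/

theorem chi0_natDegree : chi0.natDegree = 11 := by
  unfold chi0
  compute_degree!

theorem chi0_monic : chi0.Monic := by
  unfold chi0
  monicity!

theorem chi0_coeff : chi0.coeff 0 = -8 ∧ chi0.coeff 1 = -32 ∧ chi0.coeff 2 = -24 ∧
    chi0.coeff 3 = 8 ∧ chi0.coeff 4 = -56 ∧ chi0.coeff 5 = 20 ∧ chi0.coeff 6 = 8 ∧
    chi0.coeff 7 = 24 ∧ chi0.coeff 8 = 30 ∧ chi0.coeff 9 = 16 ∧ chi0.coeff 10 = 6 := by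
  unfold chi0
  refine ⟨?_, ?_, ?_, ?_, ?_, ?_, ?_, ?_, ?_, ?_, ?_⟩ <;>
    simp only [Polynomial.coeff_add, Polynomial.coeff_sub, Polynomial.coeff_C_mul,
      Polynomial.coeff_X_pow, Polynomial.coeff_X, Polynomial.coeff_C] <;>
    norm_num

theorem norm_le_of_dvd {n : ℤ} {k : ℕ} (h : (2 : ℤ) ^ k ∣ n) :
    ‖(n : ℚ_[2])‖ ≤ (1 / 2 : ℝ) ^ k := by
  have h1 := (Padic.norm_int_le_pow_iff_dvd (p := 2) n k).2 (by exact_mod_cast h)
  refine h1.trans (le_of_eq ?_)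
  rw [zpow_neg, zpow_natCast, one_div, inv_pow]
  norm_num

theorem coeff_le {n : ℤ} {k s : ℕ} (h : (2 : ℤ) ^ k ∣ n) (hs : s ≤ k * 11) :
    ‖(n : ℚ_[2])‖ ^ 11 ≤ (1 / 2 : ℝ) ^ s := by
  calc ‖(n : ℚ_[2])‖ ^ 11 ≤ ((1 / 2 : ℝ) ^ k) ^ 11 :=
        pow_le_pow_left₀ (norm_nonneg _) (norm_le_of_dvd h) 11
    _ = (1 / 2 : ℝ) ^ (k * 11) := (pow_mul _ _ _).symm
    _ ≤ (1 / 2 : ℝ) ^ s := pow_le_pow_of_le_one (by norm_num) (by norm_num) hs

/-- CQ-8a. -/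
theorem slope_chi0 : Slope 3 (chi0.map (Int.castRingHom ℚ_[2])) where
  monic := chi0_monic.map _
  deg := by
    rw [chi0_monic.natDegree_map, chi0_natDegree]
  le i hi := by
    rw [Polynomial.coeff_map]
    show ‖((chi0.coeff i : ℤ) : ℚ_[2])‖ ^ 11 ≤ _
    obtain ⟨c0, c1, c2, c3, c4, c5, c6, c7, c8, c9, c10⟩ := chi0_coeff
    interval_cases i
    · exact coeff_le (k := 3) (by rw [c0]; decide) (by norm_num)
    · exact coeff_le (k := 5) (by rw [c1]; decide) (by norm_num)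
    · exact coeff_le (k := 3) (by rw [c2]; decide) (by norm_num)
    · exact coeff_le (k := 3) (by rw [c3]; decide) (by norm_num)
    · exact coeff_le (k := 3) (by rw [c4]; decide) (by norm_num)
    · exact coeff_le (k := 2) (by rw [c5]; decide) (by norm_num)
    · exact coeff_le (k := 3) (by rw [c6]; decide) (by norm_num)
    · exact coeff_le (k := 3) (by rw [c7]; decide) (by norm_num)
    · exact coeff_le (k := 1) (by rw [c8]; decide) (by norm_num)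
    · exact coeff_le (k := 4) (by rw [c9]; decide) (by norm_num)
    · exact coeff_le (k := 1) (by rw [c10]; decide) (by norm_num)
  zero := by
    rw [Polynomial.coeff_map]
    show ‖((chi0.coeff 0 : ℤ) : ℚ_[2])‖ = _
    rw [chi0_coeff.1]
    have h2 : ‖(2 : ℚ_[2])‖ = 1 / 2 := by
      have := Padic.norm_p (p := 2)
      rw [one_div]
      exact_mod_cast this
    have h8 : (((-8 : ℤ)) : ℚ_[2]) = -(2 ^ 3) := by
      push_cast
      norm_num
    rw [h8, norm_neg, norm_pow, h2]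

end Pool.Agent.Helper90.CQ
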